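import Mathlib

namespace Pool.Agent.Results.MP_e20a4f_an.Transfer

open Filter Topology

/-- Every positive element (`star c * c`) is a zero divisor. -/
def ZStar (C : Type*) [NonUnitalCStarAlgebra C] : Prop :=
  ∀ x : C, (∃ c, x = star c * c) → ∃ y : C, y ≠ 0 ∧ (x * y = 0 ∨ y * x = 0)

/-- `f : A → M(B)` is a Woronowicz morphism: the span of the `f(a) b` is dense in `B`. -/
def Nondeg {A B : Type*} [NonUnitalCStarAlgebra A] [NonUnitalCStarAlgebra B]
    (f : A →⋆ₙₐ[ℂ] DoubleCentralizer ℂ B) : Prop :=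
  Dense (Submodule.span ℂ {z : B | ∃ a b, z = (f a).fst b} : Set B)

lemma kill {A : Type*} [NonUnitalCStarAlgebra A] (hA : ZStar A) (a : ℕ → A) :
    ∃ y : A, y ≠ 0 ∧ ∀ k, y * a k = 0 := by
  letI := CStarAlgebra.spectralOrder A
  haveI := CStarAlgebra.spectralOrderedRing A
  let c : ℕ → ℝ := fun k => (1 / 2) ^ k / (1 + ‖a k * star (a k)‖)
  have hc : ∀ k, 0 < c k := fun k => by positivity
  have hs : Summable fun k => c k • (a k * star (a k)) := by
    refine Summable.of_norm_bounded summable_geometric_two fun k => ?_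
    rw [norm_smul, Real.norm_of_nonneg (hc k).le, div_mul_eq_mul_div, div_le_iff₀ (by positivity)]
    gcongr
    linarith
  have h0 : 0 ≤ ∑' k, c k • (a k * star (a k)) :=
    tsum_nonneg fun k => smul_nonneg (hc k).le (mul_star_self_nonneg _)
  obtain ⟨y, hy, hy'⟩ := hA _ (CStarAlgebra.nonneg_iff_eq_star_mul_self.1 h0)
  obtain ⟨y, hy, hy'⟩ : ∃ y : A, y ≠ 0 ∧ y * ∑' k, c k • (a k * star (a k)) = 0 := by
    rcases hy' with h | h
    · refine ⟨star y, star_ne_zero.2 hy, ?_⟩
      have := congrArg star h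
      rwa [star_mul, (IsSelfAdjoint.of_nonneg h0).star_eq, star_zero] at this
    · exact ⟨y, hy, h⟩
  refine ⟨y, hy, fun k => ?_⟩
  have h1 := (hs.hasSum.mul_left y).mul_right (star y)
  rw [hy', zero_mul] at h1
  have e : ∀ k, y * c k • (a k * star (a k)) * star y = c k • (y * a k * star (y * a k)) := by
    intro k; simp [mul_assoc, mul_smul_comm, smul_mul_assoc]
  simp_rw [e] at h1
  have h2 := le_hasSum h1 k fun j _ => smul_nonneg (hc j).le (mul_star_self_nonneg _)
  have h3 := le_antisymm h2 (smul_nonneg (hc k).le (mul_star_self_nonneg _))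
  rwa [smul_eq_zero, or_iff_right (hc k).ne', CStarRing.mul_star_self_eq_zero_iff] at h3

theorem result (A B : Type*) [NonUnitalCStarAlgebra A] [NonUnitalCStarAlgebra B]
    (hA : ZStar A) (f : A →⋆ₙₐ[ℂ] DoubleCentralizer ℂ B) (hf : Nondeg f)
    (hinj : Function.Injective f) : ZStar B := by
  intro h _
  obtain ⟨x, hx, hlim⟩ := mem_closure_iff_seq_limit.1 (hf h)
  choose T hT hxT using fun n => Submodule.mem_span_finite_of_mem_span (hx n)
  have hc : (insert 0 (⋃ n, (T n : Set B))).Countable :=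
    (Set.countable_iUnion fun n => (T n).countable_toSet).insert 0
  obtain ⟨z, hz⟩ := hc.exists_eq_range ⟨0, Set.mem_insert _ _⟩
  have : ∀ k, ∃ a b, z k = (f a).fst b := by
    intro k
    have : z k ∈ insert 0 (⋃ n, (T n : Set B)) := hz ▸ Set.mem_range_self k
    rcases this with e | e
    · exact ⟨0, 0, by simp [e]⟩
    · obtain ⟨n, hn⟩ := Set.mem_iUnion.1 e
      exact hT n hn
  choose a b hab using this
  obtain ⟨y, hy, hya⟩ := kill hA a
  have h1 : ∀ n, (f y).fst (x n) = 0 := by
    intro n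
    have : Submodule.span ℂ (T n : Set B) ≤ LinearMap.ker ((f y).fst : B →ₗ[ℂ] B) := by
      rw [Submodule.span_le]
      intro w hw
      obtain ⟨k, rfl⟩ : w ∈ Set.range z :=
        hz ▸ Set.mem_insert_of_mem _ (Set.mem_iUnion.2 ⟨n, hw⟩)
      have : (f (y * a k)).fst (b k) = 0 := by simp [hya]
      rw [map_mul] at this
      simpa [hab] using this
    exact this (hxT n)
  have h2 : (f y).fst h = 0 :=
    tendsto_nhds_unique (((f y).fst.continuous.tendsto h).comp hlim)
      (tendsto_const_nhds.congr fun n => (h1 n).symm)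
  by_contra hcon
  push Not at hcon
  apply hy
  apply hinj
  have h3 : (f y).snd = 0 := by
    ext w
    by_contra hw
    exact (hcon _ hw).2 (by rw [(f y).central, h2, mul_zero])
  rw [map_zero, ← norm_eq_zero, ← DoubleCentralizer.norm_snd, h3, norm_zero]

end Pool.Agent.Results.MP_e20a4f_an.Transfer
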